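import Mathlib
import Pool.Agent.R700.EvoF

/-!
# Complex evolution algebras all of whose subalgebras are evolution subalgebras

All definitions are in `Pool.Agent.R700.Evo`: a product on `E` is a bilinear map `μ : Alg E`,
`IsEvolution μ`, `CondP μ`, `IsNilp μ`, `ZN s μ`, the direct sum `prodMul μ ν`, `ES1`, the algebra
`Zero m` on `ℂ^m` and `Iso μ ν`.
-/

namespace Pool.Agent.Results.MP_fa30b9_al.Classification

open Module Pool.Agent.R700.Evo

/-- **Answer to Q1 of MP_fa30b9_al** (positive).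
1. Every `n`-dimensional non-nilpotent complex evolution algebra with condition `P` is isomorphic
   to `ES₁ ⊕ ℂ^(n-1)` or to `ES₁ ⊕ W ⊕ ℂ^(n-s-1)` with `2 ≤ s ≤ n - 1` and `W ∈ ZN^s`.
2. No algebra of the first form is isomorphic to one of the second form.
3. If two algebras of the second form are isomorphic, then `s = s'`, the trivial summands have the
   same dimension and `W ≅ W'`. -/
theorem result :
    (∀ (n : ℕ) (E : Type) (_ : AddCommGroup E) (_ : Module ℂ E) (μ : Alg E), finrank ℂ E = n →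
      IsEvolution μ → CondP μ → ¬ IsNilp μ →
        Iso μ (prodMul ES1 (Zero (n - 1))) ∨
        ∃ s, 2 ≤ s ∧ s ≤ n - 1 ∧ ∃ (W : Type) (_ : AddCommGroup W) (_ : Module ℂ W) (ν : Alg W),
          ZN s ν ∧ Iso μ (prodMul ES1 (prodMul ν (Zero (n - s - 1))))) ∧
    (∀ (s m m' : ℕ) (W : Type) (_ : AddCommGroup W) (_ : Module ℂ W) (ν : Alg W), 2 ≤ s →
      ZN s ν → ¬ Iso (prodMul ES1 (Zero m)) (prodMul ES1 (prodMul ν (Zero m')))) ∧
    (∀ (s s' m m' : ℕ) (W : Type) (_ : AddCommGroup W) (_ : Module ℂ W) (ν : Alg W)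
      (W' : Type) (_ : AddCommGroup W') (_ : Module ℂ W') (ν' : Alg W'), 2 ≤ s → 2 ≤ s' →
      ZN s ν → ZN s' ν' →
      Iso (prodMul ES1 (prodMul ν (Zero m))) (prodMul ES1 (prodMul ν' (Zero m'))) →
        s = s' ∧ m = m' ∧ Iso ν ν') := by
  refine ⟨?_, ?_, ?_⟩
  · intro n E _ _ μ hdim hE hP hn
    obtain ⟨k, b, hb⟩ := hE
    subst hdim
    exact classification hP hb hn
  · intro s m m' W _ _ ν hs hZ
    exact not_iso_one hs hZ m m'
  · intro s s' m m' W _ _ ν W' _ _ ν' hs hs' hZ hZ' h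
    exact iso_two hs hZ hs' hZ' h

end Pool.Agent.Results.MP_fa30b9_al.Classification
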